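import Pool.Agent.Y245.SG.Stm

set_option autoImplicit false

open Polynomial Filter Topology

namespace Pool.Agent.Y376.SG

open Pool.Agent.Y245.SG

/-- the power series `f` represents the entire function `F` -/
def Rep (f : PowerSeries ℚ) (F : ℂ → ℂ) : Prop :=
  ∀ z : ℂ, HasSum (fun j : ℕ => ((PowerSeries.coeff j f : ℚ) : ℂ) * z ^ j) (F z)

lemma Rep.mul {f g : PowerSeries ℚ} {F G : ℂ → ℂ} (hf : Rep f F) (hg : Rep g G) :
    Rep (f * g) (fun z => F z * G z) := by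
  intro z
  have h1 := hf z
  have h2 := hg z
  have n1 := h1.summable.norm
  have n2 := h2.summable.norm
  have h3 := tsum_mul_tsum_eq_tsum_sum_antidiagonal_of_summable_norm n1 n2
  have h4 := (summable_norm_sum_mul_antidiagonal_of_summable_norm n1 n2).of_norm
  rw [h1.tsum_eq, h2.tsum_eq] at h3
  have h5 := h4.hasSum
  rw [← h3] at h5
  have h6 : (fun j : ℕ => ((PowerSeries.coeff j (f * g) : ℚ) : ℂ) * z ^ j) =
      (fun n => ∑ kl ∈ Finset.HasAntidiagonal.antidiagonal n,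
        ((PowerSeries.coeff kl.1 f : ℚ) : ℂ) * z ^ kl.1 *
          (((PowerSeries.coeff kl.2 g : ℚ) : ℂ) * z ^ kl.2)) := by
    funext j
    rw [PowerSeries.coeff_mul]
    push_cast
    rw [Finset.sum_mul]
    refine Finset.sum_congr rfl ?_
    rintro ⟨a, b⟩ hab
    rw [Finset.HasAntidiagonal.mem_antidiagonal] at hab
    simp only at hab ⊢
    rw [← hab, pow_add]
    ring
  rw [h6]
  exact h5

lemma Rep.one : Rep 1 (fun _ => 1) := by
  intro z
  have := hasSum_single (f := fun j : ℕ => ((PowerSeries.coeff j (1 : PowerSeries ℚ) : ℚ) : ℂ) * z ^ j)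
    0 (by
      intro j hj
      simp [PowerSeries.coeff_one, hj])
  simpa [PowerSeries.coeff_one] using this

lemma Rep.pow {f : PowerSeries ℚ} {F : ℂ → ℂ} (hf : Rep f F) :
    ∀ k : ℕ, Rep (f ^ k) (fun z => F z ^ k)
  | 0 => by simpa using Rep.one
  | k + 1 => by
      have := (Rep.pow hf k).mul hf
      simpa [pow_succ] using this

lemma Rep.sum {ι : Type} (s : Finset ι) (f : ι → PowerSeries ℚ) (F : ι → ℂ → ℂ)
    (h : ∀ i ∈ s, Rep (f i) (F i)) : Rep (∑ i ∈ s, f i) (fun z => ∑ i ∈ s, F i z) := by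
  intro z
  have := hasSum_sum (f := fun i j => ((PowerSeries.coeff j (f i) : ℚ) : ℂ) * z ^ j)
    (a := fun i => F i z) (s := s) (fun i hi => h i hi z)
  have h6 : (fun j : ℕ => ((PowerSeries.coeff j (∑ i ∈ s, f i) : ℚ) : ℂ) * z ^ j) =
      (fun j => ∑ i ∈ s, ((PowerSeries.coeff j (f i) : ℚ) : ℂ) * z ^ j) := by
    funext j
    rw [map_sum]
    push_cast
    rw [Finset.sum_mul]
  rw [h6]
  exact this

lemma Rep.poly (P : ℤ[X]) :
    Rep (((P.map (Int.castRingHom ℚ) : ℚ[X])) : PowerSeries ℚ) (fun z => aeval z P) := by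
  intro z
  have h1 : (fun j : ℕ => ((PowerSeries.coeff j
      (((P.map (Int.castRingHom ℚ) : ℚ[X])) : PowerSeries ℚ) : ℚ) : ℂ) * z ^ j) =
      fun j => ((P.coeff j : ℤ) : ℂ) * z ^ j := by
    funext j
    rw [Polynomial.coeff_coe, Polynomial.coeff_map]
    simp
  rw [h1]
  show HasSum _ (aeval z P)
  rw [aeval_eq_sum_range]
  have h2 : ∑ i ∈ Finset.range (P.natDegree + 1), P.coeff i • z ^ i =
      ∑ i ∈ Finset.range (P.natDegree + 1), ((P.coeff i : ℤ) : ℂ) * z ^ i := by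
    refine Finset.sum_congr rfl ?_
    intro i _
    rw [zsmul_eq_mul]
  rw [h2]
  refine hasSum_sum_of_ne_finset_zero ?_
  intro j hj
  rw [Finset.mem_range, not_lt] at hj
  rw [Polynomial.coeff_eq_zero_of_natDegree_lt (by omega)]
  simp

lemma Rep.bs (hB : S_BES) (ν : ℕ) : Rep (bs ν) (Bn ν) := by
  intro z
  have h := (hB ν).2.1 z
  have h6 : (fun j : ℕ => ((PowerSeries.coeff j (Pool.Agent.Y245.SG.bs ν) : ℚ) : ℂ) * z ^ j) =
      (fun k : ℕ => (-z) ^ k / ((k.factorial : ℂ) * ((k + ν).factorial : ℂ))) := by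
    funext j
    unfold Pool.Agent.Y245.SG.bs
    rw [PowerSeries.coeff_mk]
    push_cast
    rw [neg_pow z j]
    ring
  rw [h6]
  exact h

lemma Rep.lam (hB : S_BES) (N : ℕ) (P : ℕ → ℤ[X]) :
    Rep (LamF N P) (fun z => ∑ i ∈ Finset.range (N + 1), aeval z (P i) * Bn 0 z ^ i *
      Bn 1 z ^ (N - i)) := by
  unfold LamF
  refine Rep.sum _ _ _ ?_
  intro i _
  exact ((Rep.poly (P i)).mul ((Rep.bs hB 0).pow i)).mul ((Rep.bs hB 1).pow (N - i))

lemma summable_deriv (a : ℕ → ℂ) (h : ∀ z : ℂ, Summable (fun j => a j * z ^ j)) (z : ℂ) :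
    Summable (fun j : ℕ => a j * (j : ℂ) * z ^ j) := by
  have h1 := (h (2 * z)).norm
  refine Summable.of_norm_bounded h1 ?_
  intro j
  rw [norm_mul, norm_mul, norm_mul, norm_pow, norm_pow, norm_mul, Complex.norm_natCast, mul_pow]
  have h2 : (j : ℝ) ≤ 2 ^ j := by
    exact_mod_cast (Nat.lt_two_pow_self (n := j)).le
  have h3 : ‖(2 : ℂ)‖ = 2 := by simp
  rw [h3]
  have : ‖a j‖ * (j : ℝ) * ‖z‖ ^ j ≤ ‖a j‖ * (2 : ℝ) ^ j * ‖z‖ ^ j := by
    gcongr
  linarith

lemma deriv_series (a : ℕ → ℂ) (h : ∀ z : ℂ, Summable (fun j => a j * z ^ j)) (ω : ℂ) :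
    HasDerivAt (fun ω : ℂ => ∑' j : ℕ, a j * Complex.exp ω ^ j)
      (∑' j : ℕ, a j * (j : ℂ) * Complex.exp ω ^ j) ω := by
  set ρ : ℝ := ω.re + 1 with hρ
  have hs := (summable_deriv a h (Real.exp ρ : ℂ)).norm
  have hopen : IsOpen {w : ℂ | w.re < ρ} := isOpen_lt Complex.continuous_re continuous_const
  have hconv : IsPreconnected {w : ℂ | w.re < ρ} := (convex_halfSpace_re_lt ρ).isPreconnected
  refine hasDerivAt_tsum_of_isPreconnected (u := fun j : ℕ => ‖a j * (j : ℂ) * (Real.exp ρ : ℂ) ^ j‖)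
    (g := fun (j : ℕ) (w : ℂ) => a j * Complex.exp w ^ j)
    (g' := fun (j : ℕ) (w : ℂ) => a j * (j : ℂ) * Complex.exp w ^ j)
    (t := {w : ℂ | w.re < ρ}) (y₀ := ω) (y := ω) hs hopen hconv ?_ ?_ ?_ (h _) ?_
  · intro j w _
    have h1 : HasDerivAt (fun w : ℂ => Complex.exp w ^ j)
        ((j : ℂ) * Complex.exp w ^ (j - 1) * Complex.exp w) w :=
      (Complex.hasDerivAt_exp w).pow j
    have h2 := h1.const_mul (a j)
    refine h2.congr_deriv ?_
    rcases j with _ | j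
    · simp
    · simp only [Nat.add_sub_cancel]
      rw [pow_succ]
      ring
  · intro j w hw
    simp only [norm_mul, norm_pow, Complex.norm_exp]
    have h3 : ‖((Real.exp ρ : ℝ) : ℂ)‖ = Real.exp ρ := by
      rw [Complex.norm_real, Real.norm_eq_abs, abs_of_pos (Real.exp_pos _)]
    rw [h3]
    have h4 : Real.exp w.re ≤ Real.exp ρ := Real.exp_le_exp.2 (le_of_lt hw)
    gcongr
  · show ω.re < ρ
    rw [hρ]
    linarith
  · show ω.re < ρ
    rw [hρ]
    linarith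

lemma iter_series (a : ℕ → ℂ) (h : ∀ z : ℂ, Summable (fun j => a j * z ^ j)) (k : ℕ) :
    (∀ z : ℂ, Summable (fun j : ℕ => a j * (j : ℂ) ^ k * z ^ j)) ∧
    iteratedDeriv k (fun ω : ℂ => ∑' j : ℕ, a j * Complex.exp ω ^ j) =
      fun ω : ℂ => ∑' j : ℕ, a j * (j : ℂ) ^ k * Complex.exp ω ^ j := by
  induction k with
  | zero => simpa using h
  | succ k ih =>
    constructor
    · intro z
      have := summable_deriv _ ih.1 z
      refine this.congr ?_
      intro j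
      rw [pow_succ]
      ring
    · rw [iteratedDeriv_succ, ih.2]
      funext ω
      rw [(deriv_series _ ih.1 ω).deriv]
      refine tsum_congr ?_
      intro j
      rw [pow_succ]
      ring

/-! ### The bound -/

lemma coeff_prod_bound (f g : PowerSeries ℚ) (a : ℕ)
    (hf : ∀ m, |(PowerSeries.coeff m f : ℚ)| ≤ (a : ℚ) ^ (2 * m) / (m.factorial : ℚ) ^ 2)
    (hg : ∀ m, |(PowerSeries.coeff m g : ℚ)| ≤ 1 / (m.factorial : ℚ) ^ 2) (m : ℕ) :
    |(PowerSeries.coeff m (f * g) : ℚ)| ≤ ((a + 1 : ℕ) : ℚ) ^ (2 * m) / (m.factorial : ℚ) ^ 2 := by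
  rw [PowerSeries.coeff_mul]
  refine (Finset.abs_sum_le_sum_abs _ _).trans ?_
  have hm : (0 : ℚ) < (m.factorial : ℚ) ^ 2 := by positivity
  have h1 : ∀ p ∈ Finset.HasAntidiagonal.antidiagonal m,
      |(PowerSeries.coeff p.1 f : ℚ) * PowerSeries.coeff p.2 g| ≤
        (((m.choose p.1 : ℚ) * (a : ℚ) ^ p.1) ^ 2) / (m.factorial : ℚ) ^ 2 := by
    intro p hp
    rw [Finset.HasAntidiagonal.mem_antidiagonal] at hp
    rw [abs_mul]
    have e1 := mul_le_mul (hf p.1) (hg p.2) (abs_nonneg _) (by positivity)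
    refine e1.trans (le_of_eq ?_)
    have e2 : (m.choose p.1 : ℚ) = (m.factorial : ℚ) / ((p.1.factorial : ℚ) * (p.2.factorial : ℚ)) := by
      have : m - p.1 = p.2 := by omega
      rw [Nat.cast_choose ℚ (by omega : p.1 ≤ m), this]
    rw [e2]
    have f1 : (p.1.factorial : ℚ) ≠ 0 := by positivity
    have f2 : (p.2.factorial : ℚ) ≠ 0 := by positivity
    have f3 : (m.factorial : ℚ) ≠ 0 := by positivity
    rw [pow_mul']
    field_simp
  refine (Finset.sum_le_sum h1).trans ?_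
  rw [← Finset.sum_div]
  refine div_le_div_of_nonneg_right ?_ hm.le
  have h2 : ∑ p ∈ Finset.HasAntidiagonal.antidiagonal m, (m.choose p.1 : ℚ) * (a : ℚ) ^ p.1 = ((a + 1 : ℕ) : ℚ) ^ m := by
    have := (Commute.all (a : ℚ) 1).add_pow' m
    push_cast
    rw [this]
    refine Finset.sum_congr rfl ?_
    intro p _
    simp [nsmul_eq_mul]
  rw [pow_mul', ← h2]
  refine Finset.sum_sq_le_sq_sum_of_nonneg ?_
  intro p _
  positivity

lemma prod_pow_bound (f g : PowerSeries ℚ) (a : ℕ)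
    (hg : ∀ m, |(PowerSeries.coeff m g : ℚ)| ≤ (a : ℚ) ^ (2 * m) / (m.factorial : ℚ) ^ 2)
    (hf : ∀ m, |(PowerSeries.coeff m f : ℚ)| ≤ 1 / (m.factorial : ℚ) ^ 2) :
    ∀ (k m : ℕ), |(PowerSeries.coeff m (g * f ^ k) : ℚ)| ≤
      ((a + k : ℕ) : ℚ) ^ (2 * m) / (m.factorial : ℚ) ^ 2
  | 0, m => by simpa using hg m
  | k + 1, m => by
      have h := coeff_prod_bound (g * f ^ k) f (a + k) (prod_pow_bound f g a hg hf k) hf m
      rw [pow_succ, ← mul_assoc]
      exact h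

lemma bs_bound (ν m : ℕ) : |(PowerSeries.coeff m (Pool.Agent.Y245.SG.bs ν) : ℚ)| ≤
    1 / (m.factorial : ℚ) ^ 2 := by
  unfold Pool.Agent.Y245.SG.bs
  rw [PowerSeries.coeff_mk, abs_div, abs_pow, abs_neg, abs_one, one_pow]
  have h1 : (0 : ℚ) < m.factorial := by exact_mod_cast m.factorial_pos
  have h2 : (m.factorial : ℚ) ≤ (m + ν).factorial := by
    exact_mod_cast Nat.factorial_le (by omega)
  rw [abs_of_pos (mul_pos h1 (lt_of_lt_of_le h1 h2))]
  refine one_div_le_one_div_of_le (by positivity) ?_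
  rw [pow_two]
  exact mul_le_mul_of_nonneg_left h2 h1.le

lemma gam_bound (i l m : ℕ) :
    |(PowerSeries.coeff m (Pool.Agent.Y245.SG.bs 0 ^ i * Pool.Agent.Y245.SG.bs 1 ^ l) : ℚ)| ≤
      ((i + l : ℕ) : ℚ) ^ (2 * m) / (m.factorial : ℚ) ^ 2 := by
  have h1 : ∀ m, |(PowerSeries.coeff m (1 : PowerSeries ℚ) : ℚ)| ≤
      ((0 : ℕ) : ℚ) ^ (2 * m) / (m.factorial : ℚ) ^ 2 := by
    intro m
    rw [PowerSeries.coeff_one]
    rcases Nat.eq_zero_or_pos m with rfl | hm
    · simp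
    · rw [if_neg (by omega)]
      simp [show 2 * m ≠ 0 by omega]
  have h2 := prod_pow_bound (Pool.Agent.Y245.SG.bs 0) 1 0 h1 (bs_bound 0) i
  simp only [one_mul, Nat.zero_add] at h2
  exact prod_pow_bound (Pool.Agent.Y245.SG.bs 1) _ i h2 (bs_bound 1) l m

lemma one_bound (P : ℤ[X]) (g : PowerSeries ℚ) (N n : ℕ) (K : ℝ) (hK : 0 ≤ K)
    (hdeg : P.natDegree ≤ n)
    (hP : ∀ k, k ≤ n → (|P.coeff k| : ℝ) ≤ K * ((n.factorial : ℝ) / k.factorial) ^ 2)
    (hg : ∀ m, |(PowerSeries.coeff m g : ℚ)| ≤ (N : ℚ) ^ (2 * m) / (m.factorial : ℚ) ^ 2) (j : ℕ) :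
    |((PowerSeries.coeff j (((P.map (Int.castRingHom ℚ) : ℚ[X]) : PowerSeries ℚ) * g) : ℚ) : ℝ)| ≤
      (n + 1) * (K * (n.factorial : ℝ) ^ 2 * (4 * ((N : ℝ) + 1) ^ 2) ^ j / (j.factorial : ℝ) ^ 2) := by
  set B : ℝ := K * (n.factorial : ℝ) ^ 2 * (4 * ((N : ℝ) + 1) ^ 2) ^ j / (j.factorial : ℝ) ^ 2 with hB
  have hB0 : 0 ≤ B := by positivity
  rw [PowerSeries.coeff_mul]
  simp only [Rat.cast_sum, Rat.cast_mul]
  refine (Finset.abs_sum_le_sum_abs _ _).trans ?_
  have h1 : ∀ p ∈ Finset.HasAntidiagonal.antidiagonal j,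
      |((PowerSeries.coeff p.1 ((P.map (Int.castRingHom ℚ) : ℚ[X]) : PowerSeries ℚ) : ℚ) : ℝ) *
        ((PowerSeries.coeff p.2 g : ℚ) : ℝ)| ≤ if p.1 ≤ n then B else 0 := by
    intro p hp
    rw [Finset.HasAntidiagonal.mem_antidiagonal] at hp
    rw [Polynomial.coeff_coe, Polynomial.coeff_map]
    by_cases hpn : p.1 ≤ n
    · rw [if_pos hpn, abs_mul]
      have e1 : |(((Int.castRingHom ℚ) (P.coeff p.1) : ℚ) : ℝ)| ≤
          K * ((n.factorial : ℝ) / p.1.factorial) ^ 2 := by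
        have := hP p.1 hpn
        simpa using this
      have e2 : |((PowerSeries.coeff p.2 g : ℚ) : ℝ)| ≤ (N : ℝ) ^ (2 * p.2) / (p.2.factorial : ℝ) ^ 2 := by
        have := hg p.2
        have h3 : ((|(PowerSeries.coeff p.2 g : ℚ)| : ℚ) : ℝ) ≤
            (((N : ℚ) ^ (2 * p.2) / (p.2.factorial : ℚ) ^ 2 : ℚ) : ℝ) := by exact_mod_cast this
        push_cast at h3
        exact h3
      refine (mul_le_mul e1 e2 (abs_nonneg _) (by positivity)).trans ?_
      have e3 : (j.choose p.1 : ℝ) = (j.factorial : ℝ) / ((p.1.factorial : ℝ) * (p.2.factorial : ℝ)) := by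
        have : j - p.1 = p.2 := by omega
        rw [Nat.cast_choose ℝ (by omega : p.1 ≤ j), this]
      have f1 : (p.1.factorial : ℝ) ≠ 0 := by positivity
      have f2 : (p.2.factorial : ℝ) ≠ 0 := by positivity
      have f3 : (j.factorial : ℝ) ≠ 0 := by positivity
      have e4 : K * ((n.factorial : ℝ) / p.1.factorial) ^ 2 *
          ((N : ℝ) ^ (2 * p.2) / (p.2.factorial : ℝ) ^ 2) =
          K * (n.factorial : ℝ) ^ 2 * ((j.choose p.1 : ℝ) ^ 2 * (N : ℝ) ^ (2 * p.2)) /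
            (j.factorial : ℝ) ^ 2 := by
        rw [e3]
        field_simp
      rw [e4, hB]
      have e5 : (j.choose p.1 : ℝ) ^ 2 * (N : ℝ) ^ (2 * p.2) ≤ (4 * ((N : ℝ) + 1) ^ 2) ^ j := by
        have c1 : (j.choose p.1 : ℝ) ≤ 2 ^ j := by
          exact_mod_cast Nat.choose_le_two_pow j p.1
        have c2 : (j.choose p.1 : ℝ) ^ 2 ≤ 4 ^ j := by
          calc (j.choose p.1 : ℝ) ^ 2 ≤ (2 ^ j) ^ 2 := pow_le_pow_left₀ (by positivity) c1 2
            _ = 4 ^ j := by rw [← pow_mul, mul_comm, pow_mul]; norm_num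
        have c3 : (N : ℝ) ^ (2 * p.2) ≤ (((N : ℝ) + 1) ^ 2) ^ j := by
          calc (N : ℝ) ^ (2 * p.2) ≤ ((N : ℝ) + 1) ^ (2 * p.2) :=
                pow_le_pow_left₀ (by positivity) (by linarith) _
            _ ≤ ((N : ℝ) + 1) ^ (2 * j) := by
                refine pow_le_pow_right₀ ?_ (by omega)
                have : (0 : ℝ) ≤ N := Nat.cast_nonneg N
                linarith
            _ = _ := by rw [pow_mul]
        rw [mul_pow]
        exact mul_le_mul c2 c3 (by positivity) (by positivity)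
      gcongr
    · rw [if_neg hpn, Polynomial.coeff_eq_zero_of_natDegree_lt (by omega)]
      simp
  refine (Finset.sum_le_sum h1).trans ?_
  rw [Finset.Nat.sum_antidiagonal_eq_sum_range_succ_mk]
  simp only
  rw [← Finset.sum_filter, Finset.sum_const, nsmul_eq_mul]
  refine mul_le_mul_of_nonneg_right ?_ hB0
  have h2 : ((Finset.range j.succ).filter (fun k => k ≤ n)).card ≤ n + 1 := by
    refine (Finset.card_le_card (t := Finset.range (n + 1)) ?_).trans (by simp)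
    intro k hk
    rw [Finset.mem_filter] at hk
    exact Finset.mem_range.2 (by omega)
  exact_mod_cast h2

theorem ps : S_PS := by
  intro hB N P
  have hR := Rep.lam hB N P
  refine ⟨?_, ?_⟩
  · intro k ω
    have hs : ∀ z : ℂ, Summable (fun j : ℕ =>
        ((PowerSeries.coeff j (LamF N P) : ℚ) : ℂ) * z ^ j) := fun z => (hR z).summable
    have h1 := iter_series (fun j : ℕ => ((PowerSeries.coeff j (LamF N P) : ℚ) : ℂ)) hs k
    have h2 : (lamG N P (fun ω => Bn 0 (Complex.exp ω)) (fun ω => Bn 1 (Complex.exp ω))) =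
        fun ω : ℂ => ∑' j : ℕ, ((PowerSeries.coeff j (LamF N P) : ℚ) : ℂ) * Complex.exp ω ^ j := by
      funext ω
      rw [(hR (Complex.exp ω)).tsum_eq]
      rfl
    rw [h2, h1.2]
    exact (h1.1 (Complex.exp ω)).hasSum
  · intro n K hK hdeg hP j
    unfold LamF
    rw [map_sum]
    push_cast
    refine (Finset.abs_sum_le_sum_abs _ _).trans ?_
    have h1 : ∀ i ∈ Finset.range (N + 1),
        |((PowerSeries.coeff j ((((P i).map (Int.castRingHom ℚ) : ℚ[X]) : PowerSeries ℚ) *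
          Pool.Agent.Y245.SG.bs 0 ^ i * Pool.Agent.Y245.SG.bs 1 ^ (N - i)) : ℚ) : ℝ)| ≤
        (n + 1) * (K * (n.factorial : ℝ) ^ 2 * (4 * ((N : ℝ) + 1) ^ 2) ^ j /
          (j.factorial : ℝ) ^ 2) := by
      intro i hi
      rw [Finset.mem_range] at hi
      rw [mul_assoc]
      refine one_bound (P i) _ N n K hK (hdeg i) (fun k hk => hP i k hk) ?_ j
      intro m
      have := gam_bound i (N - i) m
      rwa [show i + (N - i) = N by omega] at this
    refine (Finset.sum_le_sum h1).trans (le_of_eq ?_)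
    rw [Finset.sum_const, Finset.card_range, nsmul_eq_mul]
    push_cast
    ring

end Pool.Agent.Y376.SG
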