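import Pool.Agent.Y245.SG.Stm

set_option autoImplicit false

open Polynomial Filter Topology

namespace Pool.Agent.Y376.SG

open Pool.Agent.Y245.SG

lemma final_zero (x C : ℝ) (hx : 0 ≤ x) (hC : 0 ≤ C) (h : ∀ n : ℕ, 1 ≤ n → x ≤ (C / n) ^ n) :
    x = 0 := by
  by_contra hne
  have hpos : 0 < x := lt_of_le_of_ne hx (Ne.symm hne)
  obtain ⟨m, hm⟩ := exists_pow_lt_of_lt_one hpos (show (1 / 2 : ℝ) < 1 by norm_num)
  obtain ⟨q, hq⟩ := exists_nat_ge (2 * C)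
  have hn : 1 ≤ m + q + 1 := by omega
  have h1 := h (m + q + 1) hn
  have hpos' : (0 : ℝ) < ((m + q + 1 : ℕ) : ℝ) := by positivity
  have h2 : C / ((m + q + 1 : ℕ) : ℝ) ≤ 1 / 2 := by
    rw [div_le_div_iff₀ hpos' (by norm_num)]
    push_cast
    have : (0 : ℝ) ≤ m := Nat.cast_nonneg m
    linarith
  have h3 : (C / ((m + q + 1 : ℕ) : ℝ)) ^ (m + q + 1) ≤ (1 / 2 : ℝ) ^ (m + q + 1) :=
    pow_le_pow_left₀ (by positivity) h2 _
  have h4 : (1 / 2 : ℝ) ^ (m + q + 1) ≤ (1 / 2 : ℝ) ^ m :=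
    pow_le_pow_of_le_one (by norm_num) (by norm_num) (by omega)
  linarith

theorem siegel : S_SIEGEL := by
  intro hBES hBNC hSTEP hSOL1 hPS hSIEG hRANK hUP hHT hLIOU hDet α hα halg h1
  obtain ⟨w, rfl⟩ : ∃ w, Complex.exp w = α := by
    have : α ∈ Set.range Complex.exp := by
      rw [Complex.range_exp]
      simpa using hα
    exact this
  obtain ⟨d, K2, hd, hK2, hL⟩ := hLIOU _ halg
  obtain ⟨K, hK, hS⟩ := hSIEG d (d + 2) hd (by omega)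
  obtain ⟨K1, hK1, hU⟩ := hUP hBES hPS d (d + 2) K w hd (by omega) hK
  obtain ⟨K3, hK3, hH⟩ := hHT d (d + 2) K hd (by omega) hK
  set b : ℝ := ‖Bn 0 (Complex.exp w)‖ with hb
  have hb0 : 0 ≤ b := norm_nonneg _
  have hK1' : 0 < K1 := by linarith
  have hK2' : 0 < K2 := by linarith
  have hK3' : 0 < K3 := by linarith
  have key : ∀ n : ℕ, 1 ≤ n →
      b ^ d ≤ ((K2 ^ (d ^ 2 + d + 3) * K3 ^ (d - 1) * K1) / n) ^ n := by
    intro n hn
    have hn0 : (0 : ℝ) < (n : ℝ) := by exact_mod_cast hn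
    obtain ⟨P, hP0, hPne, hPdeg, hPc, hPX⟩ := hS n hn
    obtain ⟨k, hk, hk1, hk2⟩ := hRANK hBES hBNC hSTEP hSOL1 hPS d (d + 2) n P w hd (by omega) hn
      hP0 (hDet d P hP0 hPne) hPdeg hPX h1
    have hu := hU n k P hn hk hPdeg hPc hPX
    rw [hk1, norm_mul, norm_pow] at hu
    obtain ⟨hdeg, hco⟩ := hH n k P hn hk hP0 hPdeg hPc d
    set H : ℝ := K3 ^ n * (n : ℝ) ^ ((2 + 1 / ((d + 2 : ℕ) : ℝ)) * n) with hHdef
    have hl := hL (Pk d P k d) H hk2 hco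
    set β : ℝ := ‖aeval (Complex.exp w) (Pk d P k d)‖ with hβ
    have hH0 : 0 ≤ H := by positivity
    have hdeg2 : (Pk d P k d).natDegree + 1 ≤ (d ^ 2 + d + 3) * n := by
      have e1 : n / (d + 2) ≤ n := Nat.div_le_self _ _
      have e2 : (d ^ 2 + d) * 1 ≤ (d ^ 2 + d) * n := Nat.mul_le_mul_left _ hn
      have e3 : (d ^ 2 + d + 3) * n = (d ^ 2 + d) * n + 3 * n := by ring
      omega
    have hpw : K2 ^ ((Pk d P k d).natDegree + 1) ≤ K2 ^ ((d ^ 2 + d + 3) * n) :=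
      pow_le_pow_right₀ hK2 hdeg2
    have hβ0 : 0 ≤ β := norm_nonneg _
    have hbd : 0 ≤ b ^ d := pow_nonneg hb0 _
    have c1 : b ^ d ≤ K2 ^ ((d ^ 2 + d + 3) * n) * H ^ (d - 1) * β * b ^ d := by
      have : (1 : ℝ) ≤ K2 ^ ((d ^ 2 + d + 3) * n) * H ^ (d - 1) * β :=
        hl.trans (mul_le_mul_of_nonneg_right (mul_le_mul_of_nonneg_right hpw (pow_nonneg hH0 _)) hβ0)
      nlinarith
    have c2 : K2 ^ ((d ^ 2 + d + 3) * n) * H ^ (d - 1) * β * b ^ d ≤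
        K2 ^ ((d ^ 2 + d + 3) * n) * H ^ (d - 1) *
          (K1 ^ n * (n : ℝ) ^ ((3 / ((d + 2 : ℕ) : ℝ) - 2 * (d : ℝ)) * n)) := by
      rw [mul_assoc]
      exact mul_le_mul_of_nonneg_left hu (mul_nonneg (pow_nonneg hK2'.le _) (pow_nonneg hH0 _))
    have c3 : K2 ^ ((d ^ 2 + d + 3) * n) * H ^ (d - 1) *
          (K1 ^ n * (n : ℝ) ^ ((3 / ((d + 2 : ℕ) : ℝ) - 2 * (d : ℝ)) * n)) =
        ((K2 ^ (d ^ 2 + d + 3) * K3 ^ (d - 1) * K1) / n) ^ n := by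
      have e1 : H ^ (d - 1) = (K3 ^ (d - 1)) ^ n *
          (n : ℝ) ^ (((2 + 1 / ((d + 2 : ℕ) : ℝ)) * n) * ((d - 1 : ℕ) : ℝ)) := by
        rw [Real.rpow_mul hn0.le ((2 + 1 / ((d + 2 : ℕ) : ℝ)) * n) ((d - 1 : ℕ) : ℝ),
          Real.rpow_natCast, hHdef, mul_pow, ← pow_mul, ← pow_mul, mul_comm n (d - 1)]
      have e2 : (n : ℝ) ^ (((2 + 1 / ((d + 2 : ℕ) : ℝ)) * n) * ((d - 1 : ℕ) : ℝ)) *
          (n : ℝ) ^ ((3 / ((d + 2 : ℕ) : ℝ) - 2 * (d : ℝ)) * n) = (1 / (n : ℝ)) ^ n := by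
        rw [← Real.rpow_add hn0]
        have : ((2 + 1 / ((d + 2 : ℕ) : ℝ)) * n) * ((d - 1 : ℕ) : ℝ) +
            (3 / ((d + 2 : ℕ) : ℝ) - 2 * (d : ℝ)) * n = -(n : ℝ) := by
          rw [Nat.cast_sub hd]
          push_cast
          have hd0 : (d : ℝ) + 2 ≠ 0 := by positivity
          have e4 : ∀ D M r : ℝ, D + 2 ≠ 0 → r = 1 / (D + 2) →
              (2 + r) * M * (D - 1) + (3 * r - 2 * D) * M = -M := by
            intro D M r h0 hr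
            have h5 : r * (D + 2) = 1 := by rw [hr]; field_simp
            linear_combination M * h5
          have := e4 (d : ℝ) (n : ℝ) (1 / ((d : ℝ) + 2)) hd0 rfl
          rw [← this]
          ring
        rw [this, Real.rpow_neg hn0.le, Real.rpow_natCast, one_div, inv_pow]
      have e5 : ∀ A x : ℝ, (A / x) ^ n = A ^ n * (1 / x) ^ n := by
        intro A x
        rw [← mul_pow, mul_one_div]
      rw [e1, e5, ← e2, mul_pow, mul_pow, pow_mul]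
      ring
    calc b ^ d ≤ _ := c1
      _ ≤ _ := c2
      _ = _ := c3
  have hz := final_zero (b ^ d) _ (pow_nonneg hb0 _) (by positivity) key
  have hb1 : b = 0 := by
    exact (pow_eq_zero_iff (by omega)).1 hz
  exact hBNC hBES 0 _ ⟨norm_eq_zero.1 hb1, h1⟩

end Pool.Agent.Y376.SG
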